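import Pool.Agent.Q49.ME.Multi
import Pool.Agent.W36.GK.K21

/-! Multiple ergodic averages along the invariant sets. -/

set_option autoImplicit false

namespace Pool.Agent.Q49.ME

open MeasureTheory Finset Pool.Agent.W36.GU Pool.Agent.W36.GV Pool.Agent.W36.GK Pool.Agent.W41 Pool.Agent.H499R2.ND
  Pool.Agent.H499R2.CO Pool.Agent.W41.FU

universe u

theorem win_sup (N : ℕ) (f : ℤ → ℝ) : Sup (win 0 N f) N := by
  intro n hn
  unfold win at hn
  split_ifs at hn with h
  · constructor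
    · have := h.1; push_cast at this; omega
    · exact h.2
  · exact absurd rfl hn

/-- the weighted multiple ergodic averages are small in quadratic mean, uniformly -/
theorem erg {s : ℤ} (hs : s = 1 ∨ s = -1) (k : ℕ) {ε : ℝ} (hε : 0 < ε) : ∃ N0 : ℕ, 1 ≤ N0 ∧ ∀ N : ℕ, N0 ≤ N →
    ∀ F ∈ Bal s, ∀ (X : Type u) [MeasurableSpace X] (μ : Measure X) [IsProbabilityMeasure μ]
      (T : Fin k → Equiv.Perm X), (∀ i, MPr μ (T i)) → (∀ i j, Commute (T i) (T j)) → ∀ f : Fin k → X → ℂ, BM f →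
      B μ T f (win 0 N F) N ≤ ε * N ^ 2 := by
  have hsm : Sm (k + 1) (Bal s) := GN_all (Bal_hyp hs) k
  obtain ⟨N0, h0⟩ := hsm (ε ^ (2 ^ k) / 3 ^ ee k) (by positivity)
  refine ⟨N0 + 1, by omega, fun N hN F hF X _ μ _ T hT hc f hf => ?_⟩
  have hN1 : (1 : ℝ) ≤ N := by exact_mod_cast (by omega : 1 ≤ N)
  have h1 := gvn (μ := μ) (N := N) k hT hc hf (win_sup N F)
  have h2 := h0 N (by omega) F hF 0 N (by omega) le_rfl
  have h3 : B μ T f (win 0 N F) N ^ (2 ^ k) ≤ (ε * N ^ 2) ^ (2 ^ k) := by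
    refine h1.trans ?_
    calc (2 * (N : ℝ) + 1) ^ ee k * GN (k + 1) (win 0 N F) N
        ≤ (3 * N) ^ ee k * (ε ^ (2 ^ k) / 3 ^ ee k * (N : ℝ) ^ (k + 1 + 1)) := by
          apply mul_le_mul (pow_le_pow_left₀ (by positivity) (by linarith) _) h2 (GN_nonneg k (win_sup N F)) (by positivity)
      _ = ε ^ (2 ^ k) * ((N : ℝ) ^ (ee k + k + 2)) := by
          rw [mul_pow, show ee k + k + 2 = ee k + (k + 1 + 1) by ring, pow_add (N : ℝ) (ee k)]
          field_simp
      _ = (ε * N ^ 2) ^ (2 ^ k) := by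
          rw [ee_eq, mul_pow, ← pow_mul]
          congr 2
          rw [pow_succ]; ring
  exact le_of_pow_le_pow_left₀ (by positivity) (by positivity) h3

theorem sym_sum {a : ℤ → ℝ} (h0 : a 0 ≤ 1) (hs : ∀ t, a (-t) = a t) (N : ℕ) :
    ∑ t ∈ Icc (-(N : ℤ)) N, a t ≤ 1 + 2 * ∑ t ∈ Icc (1 : ℤ) N, a t := by
  rw [← sum_filter_add_sum_filter_not (Icc (-(N : ℤ)) N) (fun t => 0 < t)]
  have e1 : (Icc (-(N : ℤ)) N).filter (fun t => 0 < t) = Icc (1 : ℤ) N := by
    ext t
    rw [mem_filter, mem_Icc, mem_Icc]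
    constructor
    · rintro ⟨⟨_, _⟩, _⟩; constructor <;> omega
    · rintro ⟨_, _⟩; exact ⟨⟨by omega, by omega⟩, by omega⟩
  have e2 : (Icc (-(N : ℤ)) N).filter (fun t => ¬ 0 < t) = (Icc (0 : ℤ) N).image (fun t => -t) := by
    ext t
    rw [mem_filter, mem_Icc, mem_image]
    constructor
    · rintro ⟨⟨_, _⟩, _⟩
      exact ⟨-t, by rw [mem_Icc]; constructor <;> omega, by omega⟩
    · rintro ⟨u, hu, rfl⟩
      rw [mem_Icc] at hu
      exact ⟨⟨by omega, by omega⟩, by omega⟩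
  have e3 : Icc (0 : ℤ) N = insert 0 (Icc (1 : ℤ) N) := by
    ext t
    rw [mem_insert, mem_Icc, mem_Icc]
    constructor
    · rintro ⟨_, _⟩; by_cases h : t = 0
      · exact Or.inl h
      · exact Or.inr ⟨by omega, by omega⟩
    · rintro (h | ⟨_, _⟩)
      · subst h; exact ⟨le_rfl, by positivity⟩
      · exact ⟨by omega, by omega⟩
  rw [e1, e2, sum_image (fun _ _ _ _ h => neg_injective h)]
  simp_rw [hs]
  rw [e3, sum_insert (by simp)]
  linarith

/-- a single recurrence: many return times -/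
theorem return_sum {X : Type u} [MeasurableSpace X] {μ : Measure X} [IsProbabilityMeasure μ] {T : Equiv.Perm X}
    (hT : MPr μ T) {A : Set X} (hA : MeasurableSet A) {N : ℕ} (hN0 : 0 < N) :
    (N * μ.real A ^ 2 - 1) / 2 ≤ ∑ n ∈ Icc (1 : ℤ) N, μ.real (A ∩ (T ^ n) ⁻¹' A) := by
  classical
  have hNp : (0 : ℝ) < N := by exact_mod_cast hN0
  set f : Fin 1 → X → ℂ := fun _ => A.indicator (fun _ => (1 : ℂ)) with hf
  set F : ℤ → ℝ := win 0 N (fun _ => 1) with hF
  have hfB : BM f := ⟨fun _ => measurable_const.indicator hA, fun _ x => by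
    show ‖A.indicator (fun _ => (1 : ℂ)) x‖ ≤ 1
    by_cases h : x ∈ A
    · rw [Set.indicator_of_mem h]; simp
    · rw [Set.indicator_of_notMem h]; simp⟩
  have hTT : ∀ i : Fin 1, MPr μ ((fun _ : Fin 1 => T) i) := fun _ => hT
  have hFs : Sup F N := win_sup N _
  have hF1 : ∀ n ∈ Icc (1 : ℤ) N, F n = 1 := by
    intro n hn
    rw [mem_Icc] at hn
    rw [hF]; unfold win
    rw [if_pos ⟨by push_cast; omega, hn.2⟩]
  have hF01 : ∀ n, 0 ≤ F n ∧ F n ≤ 1 := by
    intro n
    rw [hF]; unfold win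
    split_ifs <;> constructor <;> norm_num
  have hW : ∀ n x, W (fun _ : Fin 1 => T) f n x = A.indicator (fun _ => (1 : ℂ)) ((T ^ n) x) := by
    intro n x
    unfold W
    rw [Fin.prod_univ_one]
  have hmeas : ∀ n : ℤ, MeasurableSet ((T ^ n) ⁻¹' A) := fun n => (hT.zpow n).a.measurable hA
  have hinv : ∀ (n : ℤ) (C : Set X), MeasurableSet C → μ.real ((T ^ n) ⁻¹' C) = μ.real C := fun n C hC => by
    unfold Measure.real
    rw [(hT.zpow n).a.measure_preimage hC.nullMeasurableSet]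
  set a : ℤ → ℝ := fun t => μ.real (A ∩ (T ^ t) ⁻¹' A) with ha
  have ha0 : ∀ t, 0 ≤ a t := fun t => measureReal_nonneg
  have ha1 : ∀ t, a t ≤ 1 := fun t => by
    have := measureReal_le_one (μ := μ) (s := A ∩ (T ^ t) ⁻¹' A)
    exact this
  have hasym : ∀ t, a (-t) = a t := by
    intro t
    have h1 := hinv t (A ∩ (T ^ (-t)) ⁻¹' A) (hA.inter (hmeas _))
    rw [ha]
    simp only
    rw [← h1]
    congr 1
    ext x
    simp only [Set.mem_preimage, Set.mem_inter_iff]
    have e : (T ^ (-t)) ((T ^ t) x) = x := by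
      rw [← Equiv.Perm.mul_apply, ← zpow_add, neg_add_cancel, zpow_zero]; rfl
    rw [e]
    exact And.comm
  -- lower bound
  have hlow : (N * μ.real A) ^ 2 ≤ B μ (fun _ : Fin 1 => T) f F N := by
    set v : X → ℂ := fun x => ∑ n ∈ Icc (1 : ℤ) N, (F n : ℂ) * W (fun _ : Fin 1 => T) f n x with hv
    have hvm : Measurable v := Finset.measurable_sum _ fun n _ => (W_meas hTT hfB n).const_mul _
    have hvb : ∀ x, ‖v x‖ ≤ ∑ n ∈ Icc (1 : ℤ) N, ‖(F n : ℂ)‖ := fun x => by
      refine (norm_sum_le _ _).trans (sum_le_sum fun n _ => ?_)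
      rw [norm_mul]
      exact mul_le_of_le_one_right (norm_nonneg _) (W_norm _ hfB n x)
    have h1 := cs (μ := μ) hvm hvb
    have h2 : N * μ.real A ≤ ∫ x, ‖v x‖ ∂μ := by
      have h3 : ∫ x, v x ∂μ = ((N * μ.real A : ℝ) : ℂ) := by
        rw [hv, integral_finsetSum _ (fun n _ => (bdd_int (W_meas hTT hfB n) (W_norm _ hfB n)).const_mul _)]
        have e : ∀ n ∈ Icc (1 : ℤ) N, ∫ x, (F n : ℂ) * W (fun _ : Fin 1 => T) f n x ∂μ = ((μ.real A : ℝ) : ℂ) := by
          intro n hn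
          rw [integral_const_mul, hF1 n hn]
          have e2 : ∀ x, W (fun _ : Fin 1 => T) f n x = ((T ^ n) ⁻¹' A).indicator (fun _ => (1 : ℂ)) x := by
            intro x
            rw [hW]
            rfl
          simp_rw [e2]
          rw [integral_indicator_const _ (hmeas n), hinv n A hA]
          simp
        rw [sum_congr rfl e, sum_const, Int.card_Icc]
        have : ((N : ℤ) + 1 - 1).toNat = N := by omega
        rw [this]
        push_cast
        ring
      have h4 := norm_integral_le_integral_norm (μ := μ) v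
      rw [h3, Complex.norm_real, Real.norm_eq_abs, abs_of_nonneg (by positivity)] at h4
      exact h4
    have h5 := pow_le_pow_left₀ (by positivity) (h2.trans h1) 2
    rw [Real.sq_sqrt (integral_nonneg fun _ => by positivity)] at h5
    exact h5
  -- upper bound
  have hup : B μ (fun _ : Fin 1 => T) f F N ≤ N * ∑ t ∈ Icc (-(N : ℤ)) N, a t := by
    have h1 : B μ (fun _ : Fin 1 => T) f F N = ‖((B μ (fun _ : Fin 1 => T) f F N : ℝ) : ℂ)‖ := by
      rw [Complex.norm_real, Real.norm_eq_abs, abs_of_nonneg (B_nonneg _ _ _ _ _)]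
    rw [h1, expand hTT hfB hFs, mul_sum]
    refine (norm_sum_le _ _).trans (sum_le_sum fun t _ => ?_)
    have h2 : ∀ n ∈ Icc (1 : ℤ) N, ‖((De t F n : ℝ) : ℂ) *
        ∫ x, W (fun _ : Fin 1 => T) f n x * (starRingEnd ℂ) (W (fun _ : Fin 1 => T) f (n + t) x) ∂μ‖ ≤ a t := by
      intro n _
      have e2 : ∀ x, W (fun _ : Fin 1 => T) f n x * (starRingEnd ℂ) (W (fun _ : Fin 1 => T) f (n + t) x)
          = ((T ^ n) ⁻¹' (A ∩ (T ^ t) ⁻¹' A)).indicator (fun _ => (1 : ℂ)) x := by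
        intro x
        rw [hW, hW]
        have e3 : (T ^ (n + t)) x = (T ^ t) ((T ^ n) x) := by
          rw [add_comm, zpow_add, Equiv.Perm.mul_apply]
        rw [e3]
        by_cases c1 : (T ^ n) x ∈ A
        · by_cases c2 : (T ^ t) ((T ^ n) x) ∈ A
          · have c3 : x ∈ (T ^ n) ⁻¹' (A ∩ (T ^ t) ⁻¹' A) := ⟨c1, c2⟩
            rw [Set.indicator_of_mem c1, Set.indicator_of_mem c2, Set.indicator_of_mem c3]; simp
          · have c3 : x ∉ (T ^ n) ⁻¹' (A ∩ (T ^ t) ⁻¹' A) := fun h => c2 h.2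
            rw [Set.indicator_of_notMem c2, Set.indicator_of_notMem c3]; simp
        · have c3 : x ∉ (T ^ n) ⁻¹' (A ∩ (T ^ t) ⁻¹' A) := fun h => c1 h.1
          rw [Set.indicator_of_notMem c1, Set.indicator_of_notMem c3]; simp
      simp_rw [e2]
      have hm2 : MeasurableSet (A ∩ (T ^ t) ⁻¹' A) := hA.inter (hmeas t)
      rw [integral_indicator_const _ ((hT.zpow n).a.measurable hm2), hinv n _ hm2, norm_mul, norm_smul, norm_one,
        mul_one, Complex.norm_real, Real.norm_eq_abs, Real.norm_eq_abs, abs_of_nonneg (ha0 t)]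
      have h3 : |De t F n| ≤ 1 := by
        unfold De
        rw [abs_le]
        have g1 := hF01 n
        have g2 := hF01 (n + t)
        constructor <;> nlinarith
      exact mul_le_of_le_one_left (ha0 t) h3
    refine (norm_sum_le _ _).trans ((sum_le_sum h2).trans (le_of_eq ?_))
    rw [sum_const, Int.card_Icc, nsmul_eq_mul]
    have : ((N : ℤ) + 1 - 1).toNat = N := by omega
    rw [this]
  have h9 := sym_sum (ha1 0) hasym N
  have h10 : (N * μ.real A) ^ 2 ≤ N * (1 + 2 * ∑ t ∈ Icc (1 : ℤ) N, a t) :=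
    hlow.trans (hup.trans (mul_le_mul_of_nonneg_left h9 hNp.le))
  have h11 : N * μ.real A ^ 2 ≤ 1 + 2 * ∑ t ∈ Icc (1 : ℤ) N, a t := by
    refine le_of_mul_le_mul_left ?_ hNp
    calc (N : ℝ) * (N * μ.real A ^ 2) = (N * μ.real A) ^ 2 := by ring
      _ ≤ _ := h10
  show (N * μ.real A ^ 2 - 1) / 2 ≤ ∑ t ∈ Icc (1 : ℤ) N, a t
  linarith

end Pool.Agent.Q49.ME
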