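import Pool.Agent.Q49.ME.Res
import Pool.Agent.Q49.EX.F

/-! Multiple ergodic averages along the integers of bounded excursion. -/

set_option autoImplicit false

namespace Pool.Agent.Q49.ME

open MeasureTheory Finset Pool.Agent.W36.GU Pool.Agent.W36.GV Pool.Agent.W36.GK Pool.Agent.W41
open Pool.Agent.H499R2.ND (Dn Tn Bdd Bdd_inv AK AK_mod AK_of_bound cnt NS NS_inv HD cnt_eq)
open Pool.Agent.W41.FU (bal)
open Pool.Agent.W41.MU (tw)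
open Pool.Agent.Q49.EX (Ec BB ec_bdd exc_small bal_eq hd_nat)
open Pool.Agent.Results.MP_2d22f3_nt.MultipleRecurrence (System Bounded tp tp_mp tp_comm P_W BM_of ret_sum P_meas P_norm)

/-- the class of the residues -/
noncomputable def rc (q N : ℕ) (b : ℕ) : Finset ℕ := (Finset.Icc 1 N).filter (fun n : ℕ => (n : ℤ) ≡ (b : ℤ) [ZMOD (q : ℤ)])

open scoped Classical in
theorem excL2 (m : ℕ) {lam : ℝ} (hl : 1 ≤ lam) {ε : ℝ} (hε : 0 < ε) :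
    ∃ K0 : ℕ, ∀ K : ℕ, K0 ≤ K → ∃ N0 : ℕ, 1 ≤ N0 ∧ ∀ P : ℕ → Prop, (∀ n, 1 ≤ n → (P n ↔ P (Tn n))) → ∀ δ : ℝ,
    Dn (fun n => P n ∧ Bdd n) δ → ∀ N : ℕ, N0 ≤ N →
    ∀ (X : Type) [MeasurableSpace X] (Y : System m X) (f : Fin m → X → ℂ), Bounded f →
    ∫ x, ‖∑ n ∈ Finset.Icc 1 N, (((if P n ∧ Ec lam n then (1 : ℝ) else 0) - δ * (if AK K lam n then 1 else 0) : ℝ) : ℂ)
      * Y.P f n x‖ ^ 2 ∂Y.μ ≤ ε * N ^ 2 := by
  obtain ⟨β, _, _, _, hβ⟩ := Pool.Agent.H499R2.ND.Bdd_density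
  set ε₁ : ℝ := Real.sqrt (ε / 4) with hε₁
  have hε₁0 : 0 < ε₁ := Real.sqrt_pos.2 (by positivity)
  have hε₁2 : ε₁ ^ 2 = ε / 4 := Real.sq_sqrt (by positivity)
  obtain ⟨K0, hK0⟩ := exc_small (β := β) hβ hl hε₁0
  refine ⟨K0, fun K hK => ?_⟩
  obtain ⟨N1, hN1⟩ := hK0 K hK
  have : NeZero (2 ^ K) := ⟨by positivity⟩
  have hq : (0 : ℝ) < ((2 ^ K : ℕ) : ℝ) := by positivity
  have hsm : Sm (m + 2) (Bal 1) := GN_all (Bal_hyp (Or.inl rfl)) (m + 1)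
  obtain ⟨N2, h2, hN2⟩ := smallF_res m hsm (2 ^ K) (show 0 < ε / (4 * ((2 ^ K : ℕ) : ℝ) ^ 2) by positivity)
  refine ⟨N1 + N2 + 1, by omega, fun P hP δ hδ N hN X _ Y f hf => ?_⟩
  have hprob := Y.prob
  have hNp : (0 : ℝ) < N := by exact_mod_cast (by omega : 0 < N)
  set Q : ℕ → Prop := fun n => P n ∧ Bdd n with hQ
  have hQi : ∀ n, 1 ≤ n → (Q n ↔ Q (Tn n)) := fun n hn => and_congr (hP n hn) (Bdd_inv n)
  -- the invariant part
  set g : ℤ → ℝ := bal 1 (NS Q) δ with hg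
  have hgm : g ∈ Bal 1 := ⟨NS Q, NS_inv hQi, δ, hd_nat hQi hδ, rfl⟩
  have hgn : ∀ n : ℕ, 1 ≤ n → g n = (if Q n then (1 : ℝ) else 0) - δ := by
    intro n hn
    have h1 := bal_eq (P := Q) δ hn
    unfold tw at h1
    simp only [zero_mul, Complex.ofReal_zero, Complex.exp_zero, mul_one] at h1
    have h3 : ((g n : ℝ) : ℂ) = (((if Q n then (1 : ℝ) else 0) - δ : ℝ) : ℂ) := by
      rw [hg]
      rw [h1]
      by_cases hq' : Q n
      · rw [if_pos hq', if_pos hq']; push_cast; ring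
      · rw [if_neg hq', if_neg hq']; push_cast; ring
    exact Complex.ofReal_injective h3
  set a : ℕ → ℝ := fun n => (if P n ∧ Ec lam n then (1 : ℝ) else 0) - (if Q n ∧ AK K lam n then 1 else 0) with ha
  have hsplit : ∀ x, ∑ n ∈ Finset.Icc 1 N, (((if P n ∧ Ec lam n then (1 : ℝ) else 0) - δ * (if AK K lam n then 1 else 0) : ℝ) : ℂ)
      * Y.P f n x = ∑ n ∈ Finset.Icc 1 N, ((a n : ℝ) : ℂ) * Y.P f n x +
        ∑ b ∈ (range (2 ^ K)).filter (fun b => AK K lam b), ∑ n ∈ rc (2 ^ K) N b, ((g n : ℝ) : ℂ) * Y.P f n x := by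
    intro x
    have e1 : ∑ b ∈ (range (2 ^ K)).filter (fun b => AK K lam b), ∑ n ∈ rc (2 ^ K) N b, ((g n : ℝ) : ℂ) * Y.P f n x
        = ∑ n ∈ Finset.Icc 1 N, (if AK K lam n then ((g n : ℝ) : ℂ) * Y.P f n x else 0) := by
      rw [← sum_filter]
      rw [← sum_fiberwise_of_maps_to (s := (Finset.Icc 1 N).filter (fun n => AK K lam n))
        (t := (range (2 ^ K)).filter (fun b => AK K lam b)) (g := fun n => n % 2 ^ K) (fun n hn => by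
          rw [mem_filter] at hn ⊢
          rw [mem_range, AK_mod]
          exact ⟨Nat.mod_lt _ (by positivity), hn.2⟩)]
      apply sum_congr rfl; intro b hb
      rw [mem_filter, mem_range] at hb
      apply sum_congr _ (fun _ _ => rfl)
      ext n
      unfold rc
      rw [mem_filter, mem_filter, mem_filter]
      have e2 : (n : ℤ) ≡ (b : ℤ) [ZMOD ((2 ^ K : ℕ) : ℤ)] ↔ n % 2 ^ K = b := by
        rw [Int.natCast_modEq_iff]
        unfold Nat.ModEq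
        rw [Nat.mod_eq_of_lt hb.1]
      rw [e2]
      constructor
      · rintro ⟨h3, h4⟩
        refine ⟨⟨h3, ?_⟩, h4⟩
        rw [← AK_mod, h4]; exact hb.2
      · rintro ⟨⟨h3, _⟩, h4⟩
        exact ⟨h3, h4⟩
    rw [e1, ← sum_add_distrib]
    apply sum_congr rfl; intro n hn
    rw [Finset.mem_Icc] at hn
    have h3 := hgn n hn.1
    rw [ha]
    simp only
    generalize (if P n ∧ Ec lam n then (1 : ℝ) else 0) = pe
    by_cases hA : AK K lam n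
    · by_cases hq' : Q n
      · have e3 : Q n ∧ AK K lam n := ⟨hq', hA⟩
        rw [if_pos hA, if_pos hA, h3, if_pos hq', if_pos e3]
        push_cast; ring
      · have e3 : ¬ (Q n ∧ AK K lam n) := fun h => hq' h.1
        rw [if_pos hA, if_pos hA, h3, if_neg hq', if_neg e3]
        push_cast; ring
    · have e3 : ¬ (Q n ∧ AK K lam n) := fun h => hA h.2
      rw [if_neg hA, if_neg hA, if_neg e3]
      push_cast; ring
  -- the first part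
  have hfirst : ∀ x, ‖∑ n ∈ Finset.Icc 1 N, ((a n : ℝ) : ℂ) * Y.P f n x‖ ≤ ε₁ * N := by
    intro x
    refine (norm_sum_le _ _).trans (le_trans ?_ (hN1 N (by omega)))
    rw [cnt_eq, card_filter]
    push_cast
    apply sum_le_sum; intro n hn
    rw [Finset.mem_Icc] at hn
    rw [norm_mul]
    refine (mul_le_of_le_one_right (norm_nonneg _) (P_norm Y hf n x)).trans ?_
    rw [Complex.norm_real, Real.norm_eq_abs, ha]
    simp only
    by_cases he : P n ∧ Ec lam n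
    · have h3 : Q n ∧ AK K lam n := ⟨⟨he.1, ec_bdd he.2⟩, AK_of_bound hl hn.1 he.2 K⟩
      rw [if_pos he, if_pos h3, sub_self, abs_zero]
      split_ifs <;> norm_num
    · by_cases h3 : Q n ∧ AK K lam n
      · have h4 : BB K lam n := ⟨⟨h3.2, h3.1.2⟩, fun h => he ⟨h3.1.1, h⟩⟩
        rw [if_neg he, if_pos h3, if_pos h4]
        norm_num
      · rw [if_neg he, if_neg h3, sub_self, abs_zero]
        split_ifs <;> norm_num
  -- the second part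
  set R := (range (2 ^ K)).filter (fun b => AK K lam b) with hR
  have hRc : (R.card : ℝ) ≤ ((2 ^ K : ℕ) : ℝ) := by
    have := card_filter_le (range (2 ^ K)) (fun b => AK K lam b)
    rw [card_range] at this
    exact_mod_cast this
  have hmeas : ∀ (t : Finset ℕ) (c : ℕ → ℝ), Measurable (fun x => ∑ n ∈ t, ((c n : ℝ) : ℂ) * Y.P f n x) := fun t c =>
    Finset.measurable_sum _ fun n _ => (P_meas Y hf n).const_mul _
  have hbd : ∀ (t : Finset ℕ) (c : ℕ → ℝ) (x : X), ‖∑ n ∈ t, ((c n : ℝ) : ℂ) * Y.P f n x‖ ≤ ∑ n ∈ t, ‖((c n : ℝ) : ℂ)‖ := fun t c x => by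
    refine (norm_sum_le _ _).trans (sum_le_sum fun n _ => ?_)
    rw [norm_mul]
    exact mul_le_of_le_one_right (norm_nonneg _) (P_norm Y hf n x)
  have hint : ∀ (t : Finset ℕ) (c : ℕ → ℝ), Integrable (fun x => ‖∑ n ∈ t, ((c n : ℝ) : ℂ) * Y.P f n x‖ ^ 2) Y.μ := fun t c =>
    Integrable.of_bound ((hmeas t c).norm.pow_const 2).aestronglyMeasurable ((∑ n ∈ t, ‖((c n : ℝ) : ℂ)‖) ^ 2)
      (Filter.Eventually.of_forall fun x => by
        rw [Real.norm_eq_abs, abs_of_nonneg (by positivity)]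
        exact pow_le_pow_left₀ (norm_nonneg _) (hbd t c x) 2)
  have hsecond : ∀ b : ℕ, ∫ x, ‖∑ n ∈ rc (2 ^ K) N b, ((g n : ℝ) : ℂ) * Y.P f n x‖ ^ 2 ∂Y.μ ≤ ε / (4 * ((2 ^ K : ℕ) : ℝ) ^ 2) * N ^ 2 := by
    intro b
    exact hN2 N (by omega) g hgm (b : ℤ) X Y f hf
  have hmain : ∀ x, ‖∑ n ∈ Finset.Icc 1 N, (((if P n ∧ Ec lam n then (1 : ℝ) else 0) - δ * (if AK K lam n then 1 else 0) : ℝ) : ℂ)
      * Y.P f n x‖ ^ 2 ≤ 2 * (ε₁ * N) ^ 2 + 2 * (((2 ^ K : ℕ) : ℝ) * ∑ b ∈ R, ‖∑ n ∈ rc (2 ^ K) N b, ((g n : ℝ) : ℂ) * Y.P f n x‖ ^ 2) := by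
    intro x
    rw [hsplit x]
    set u := ∑ n ∈ Finset.Icc 1 N, ((a n : ℝ) : ℂ) * Y.P f n x with hu
    set v := ∑ b ∈ R, ∑ n ∈ rc (2 ^ K) N b, ((g n : ℝ) : ℂ) * Y.P f n x with hv
    have h3 : ‖u + v‖ ^ 2 ≤ 2 * ‖u‖ ^ 2 + 2 * ‖v‖ ^ 2 := by
      have h4 := norm_add_le u v
      have h5 : ‖u + v‖ ^ 2 ≤ (‖u‖ + ‖v‖) ^ 2 := pow_le_pow_left₀ (norm_nonneg _) h4 2
      nlinarith [sq_nonneg (‖u‖ - ‖v‖)]
    have h4 : ‖u‖ ^ 2 ≤ (ε₁ * N) ^ 2 := pow_le_pow_left₀ (norm_nonneg _) (hfirst x) 2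
    have h5 : ‖v‖ ^ 2 ≤ ((2 ^ K : ℕ) : ℝ) * ∑ b ∈ R, ‖∑ n ∈ rc (2 ^ K) N b, ((g n : ℝ) : ℂ) * Y.P f n x‖ ^ 2 := by
      have h6 : ‖v‖ ≤ ∑ b ∈ R, ‖∑ n ∈ rc (2 ^ K) N b, ((g n : ℝ) : ℂ) * Y.P f n x‖ := norm_sum_le _ _
      have h7 := sq_sum_le_card_mul_sum_sq (s := R) (f := fun b => ‖∑ n ∈ rc (2 ^ K) N b, ((g n : ℝ) : ℂ) * Y.P f n x‖)
      calc ‖v‖ ^ 2 ≤ (∑ b ∈ R, ‖∑ n ∈ rc (2 ^ K) N b, ((g n : ℝ) : ℂ) * Y.P f n x‖) ^ 2 := pow_le_pow_left₀ (norm_nonneg _) h6 2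
        _ ≤ R.card * ∑ b ∈ R, ‖∑ n ∈ rc (2 ^ K) N b, ((g n : ℝ) : ℂ) * Y.P f n x‖ ^ 2 := h7
        _ ≤ _ := mul_le_mul_of_nonneg_right hRc (sum_nonneg fun _ _ => by positivity)
    linarith
  have hI : Integrable (fun x => 2 * (ε₁ * N) ^ 2 + 2 * (((2 ^ K : ℕ) : ℝ) * ∑ b ∈ R, ‖∑ n ∈ rc (2 ^ K) N b, ((g n : ℝ) : ℂ) * Y.P f n x‖ ^ 2)) Y.μ := by
    apply Integrable.add (integrable_const _)
    apply Integrable.const_mul
    apply Integrable.const_mul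
    exact integrable_finsetSum _ fun b _ => hint _ (fun n => g n)
  refine (integral_mono_of_nonneg (Filter.Eventually.of_forall fun x => by positivity) hI (Filter.Eventually.of_forall hmain)).trans ?_
  rw [integral_add (integrable_const _) (by
    apply Integrable.const_mul
    apply Integrable.const_mul
    exact integrable_finsetSum _ fun b _ => hint _ (fun n => g n))]
  rw [integral_const, smul_eq_mul, probReal_univ, one_mul, integral_const_mul, integral_const_mul,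
    integral_finsetSum _ (fun b _ => hint _ (fun n => g n))]
  have h3 : ∑ b ∈ R, ∫ x, ‖∑ n ∈ rc (2 ^ K) N b, ((g n : ℝ) : ℂ) * Y.P f n x‖ ^ 2 ∂Y.μ ≤
      ((2 ^ K : ℕ) : ℝ) * (ε / (4 * ((2 ^ K : ℕ) : ℝ) ^ 2) * N ^ 2) := by
    calc _ ≤ ∑ _b ∈ R, ε / (4 * ((2 ^ K : ℕ) : ℝ) ^ 2) * N ^ 2 := sum_le_sum fun b _ => hsecond b
      _ = R.card * (ε / (4 * ((2 ^ K : ℕ) : ℝ) ^ 2) * N ^ 2) := by rw [sum_const, nsmul_eq_mul]
      _ ≤ _ := mul_le_mul_of_nonneg_right hRc (by positivity)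
  have h4 : ((2 ^ K : ℕ) : ℝ) * (((2 ^ K : ℕ) : ℝ) * (ε / (4 * ((2 ^ K : ℕ) : ℝ) ^ 2) * N ^ 2)) = ε / 4 * N ^ 2 := by
    field_simp
  have h5 : ((2 ^ K : ℕ) : ℝ) * ∑ b ∈ R, ∫ x, ‖∑ n ∈ rc (2 ^ K) N b, ((g n : ℝ) : ℂ) * Y.P f n x‖ ^ 2 ∂Y.μ ≤ ε / 4 * N ^ 2 := by
    rw [← h4]
    exact mul_le_mul_of_nonneg_left h3 hq.le
  have h6 : (ε₁ * N) ^ 2 = ε / 4 * N ^ 2 := by rw [mul_pow, hε₁2]
  rw [h6]
  linarith

end Pool.Agent.Q49.ME
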