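import Pool.Agent.Results.MP_2d22f3_nt.MultipleRecurrence

/-! Multiple ergodic averages with weights from a class of small Gowers norms. -/

set_option autoImplicit false

namespace Pool.Agent.Q49.ME

open MeasureTheory Finset Pool.Agent.W36.GU Pool.Agent.W36.GV Pool.Agent.W36.GK
open Pool.Agent.Results.MP_2d22f3_nt.MultipleRecurrence (System Bounded tp tp_mp tp_comm P_W BM_of ret_sum)

universe u

theorem ergF (k : ℕ) {Fc : Set (ℤ → ℝ)} (hsm : Sm (k + 1) Fc) {ε : ℝ} (hε : 0 < ε) : ∃ N0 : ℕ, 1 ≤ N0 ∧ ∀ N : ℕ, N0 ≤ N →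
    ∀ F ∈ Fc, ∀ (X : Type u) [MeasurableSpace X] (μ : Measure X) [IsProbabilityMeasure μ]
      (T : Fin k → Equiv.Perm X), (∀ i, MPr μ (T i)) → (∀ i j, Commute (T i) (T j)) → ∀ f : Fin k → X → ℂ, BM f →
      B μ T f (win 0 N F) N ≤ ε * N ^ 2 := by
  obtain ⟨N0, h0⟩ := hsm (ε ^ (2 ^ k) / 3 ^ ee k) (by positivity)
  refine ⟨N0 + 1, by omega, fun N hN F hF X _ μ _ T hT hc f hf => ?_⟩
  have hN1 : (1 : ℝ) ≤ N := by exact_mod_cast (by omega : 1 ≤ N)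
  have h1 := gvn (μ := μ) (N := N) k hT hc hf (win_sup N F)
  have h2 := h0 N (by omega) F hF 0 N (by omega) le_rfl
  have h3 : B μ T f (win 0 N F) N ^ (2 ^ k) ≤ (ε * N ^ 2) ^ (2 ^ k) := by
    refine h1.trans ?_
    calc (2 * (N : ℝ) + 1) ^ ee k * GN (k + 1) (win 0 N F) N
        ≤ (3 * N) ^ ee k * (ε ^ (2 ^ k) / 3 ^ ee k * (N : ℝ) ^ (k + 1 + 1)) := by
          apply mul_le_mul (pow_le_pow_left₀ (by positivity) (by linarith) _) h2 (GN_nonneg k (win_sup N F)) (by positivity)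
      _ = ε ^ (2 ^ k) * ((N : ℝ) ^ (ee k + k + 2)) := by
          rw [mul_pow, show ee k + k + 2 = ee k + (k + 1 + 1) by ring, pow_add (N : ℝ) (ee k)]
          field_simp
      _ = (ε * N ^ 2) ^ (2 ^ k) := by
          rw [ee_eq, mul_pow, ← pow_mul]
          congr 2
          rw [pow_succ]; ring
  exact le_of_pow_le_pow_left₀ (by positivity) (by positivity) h3

theorem smallF (k : ℕ) {Fc : Set (ℤ → ℝ)} (hsm : Sm (k + 1) Fc) {ε : ℝ} (hε : 0 < ε) : ∃ N₀ : ℕ, 1 ≤ N₀ ∧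
    ∀ N : ℕ, N₀ ≤ N → ∀ F ∈ Fc, ∀ (X : Type) [MeasurableSpace X] (Y : System k X) (f : Fin k → X → ℂ),
      Bounded f → ∫ x, ‖∑ n ∈ Finset.Icc 1 N, ((F n : ℝ) : ℂ) * Y.P f n x‖ ^ 2 ∂Y.μ ≤ ε * N ^ 2 := by
  obtain ⟨N0, h1, h0⟩ := ergF.{0} k hsm hε
  refine ⟨N0, h1, fun N hN F hF X _ Y f hf => ?_⟩
  have := Y.prob
  have h2 := h0 N hN F hF X Y.μ (tp Y) (tp_mp Y) (tp_comm Y) f (BM_of hf)
  refine le_trans (le_of_eq ?_) h2
  unfold B
  congr 1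
  funext x
  rw [Pool.Agent.Results.MP_2d22f3_nt.MultipleRecurrence.sum_cast]
  congr 2
  apply Finset.sum_congr rfl; intro n hn
  rw [Finset.mem_Icc] at hn
  rw [P_W]
  unfold win
  rw [if_pos ⟨by push_cast; omega, by exact_mod_cast hn.2⟩]

theorem small_retF (k : ℕ) {Fc : Set (ℤ → ℝ)} (hsm : Sm (k + 1) Fc) {ε : ℝ} (hε : 0 < ε) : ∃ N₀ : ℕ, 1 ≤ N₀ ∧
    ∀ N : ℕ, N₀ ≤ N → ∀ F ∈ Fc, ∀ (X : Type) [MeasurableSpace X] (Y : System k X) (A₀ : Set X) (A : Fin k → Set X),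
      MeasurableSet A₀ → (∀ i, MeasurableSet (A i)) →
      |∑ n ∈ Finset.Icc 1 N, F n * Y.ret A₀ A n| ≤ ε * N := by
  obtain ⟨N0, h1, h0⟩ := smallF k hsm (show 0 < ε ^ 2 by positivity)
  refine ⟨N0, h1, fun N hN F hF X _ Y A₀ A hA₀ hA => ?_⟩
  refine (ret_sum Y hA₀ hA (fun n : ℕ => F n) N).trans ?_
  have h2 := h0 N hN F hF X Y (fun i => (A i).indicator (fun _ => 1)) (fun i => ⟨measurable_const.indicator (hA i), fun x => by
    show ‖(A i).indicator (fun _ => (1 : ℂ)) x‖ ≤ 1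
    by_cases h : x ∈ A i
    · rw [Set.indicator_of_mem h]; simp
    · rw [Set.indicator_of_notMem h]; simp⟩)
  calc _ ≤ Real.sqrt (ε ^ 2 * N ^ 2) := Real.sqrt_le_sqrt h2
    _ = ε * N := by
      rw [← mul_pow, Real.sqrt_sq (by positivity)]

end Pool.Agent.Q49.ME
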