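import Pool.Agent.W36.GV.GV1

/-! Multiple ergodic averages with weights: the generalised von Neumann inequality. -/

set_option autoImplicit false

namespace Pool.Agent.Q49.ME

open MeasureTheory Finset Pool.Agent.W36.GU Pool.Agent.W36.GV

universe u

variable {X : Type u} [MeasurableSpace X]

/-- invertible measure preserving transformations -/
structure MPr (μ : Measure X) (T : Equiv.Perm X) : Prop where
  a : MeasurePreserving T μ μ
  b : MeasurePreserving T.symm μ μ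

theorem MPr.one (μ : Measure X) : MPr μ (1 : Equiv.Perm X) := ⟨MeasurePreserving.id μ, MeasurePreserving.id μ⟩

theorem MPr.mul {μ : Measure X} {S T : Equiv.Perm X} (hS : MPr μ S) (hT : MPr μ T) : MPr μ (S * T) :=
  ⟨hS.a.comp hT.a, hT.b.comp hS.b⟩

theorem MPr.inv {μ : Measure X} {T : Equiv.Perm X} (hT : MPr μ T) : MPr μ T⁻¹ := ⟨hT.b, hT.a⟩

theorem MPr.pow {μ : Measure X} {T : Equiv.Perm X} (hT : MPr μ T) (n : ℕ) : MPr μ (T ^ n) := by
  induction n with
  | zero => rw [pow_zero]; exact MPr.one μ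
  | succ n ih => rw [pow_succ]; exact ih.mul hT

theorem MPr.zpow {μ : Measure X} {T : Equiv.Perm X} (hT : MPr μ T) (n : ℤ) : MPr μ (T ^ n) := by
  cases n with
  | ofNat n => exact hT.pow n
  | negSucc n => rw [zpow_negSucc]; exact (hT.pow _).inv

/-- the products -/
def W {k : ℕ} (T : Fin k → Equiv.Perm X) (f : Fin k → X → ℂ) (n : ℤ) (x : X) : ℂ := ∏ i, f i ((T i ^ n) x)

/-- bounded measurable functions -/
structure BM {k : ℕ} (f : Fin k → X → ℂ) : Prop where
  m : ∀ i, Measurable (f i)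
  b : ∀ i x, ‖f i x‖ ≤ 1

theorem W_meas {μ : Measure X} {k : ℕ} {T : Fin k → Equiv.Perm X} (hT : ∀ i, MPr μ (T i)) {f : Fin k → X → ℂ} (hf : BM f)
    (n : ℤ) : Measurable (W T f n) := by
  unfold W
  exact Finset.measurable_prod _ fun i _ => (hf.m i).comp ((hT i).zpow n).a.measurable

theorem W_norm {k : ℕ} (T : Fin k → Equiv.Perm X) {f : Fin k → X → ℂ} (hf : BM f) (n : ℤ) (x : X) : ‖W T f n x‖ ≤ 1 := by
  unfold W
  rw [norm_prod]
  exact prod_le_one (fun _ _ => norm_nonneg _) fun i _ => hf.b i _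

/-- the quadratic mean of the weighted sums -/
noncomputable def B (μ : Measure X) {k : ℕ} (T : Fin k → Equiv.Perm X) (f : Fin k → X → ℂ) (F : ℤ → ℝ) (N : ℕ) : ℝ :=
  ∫ x, ‖∑ n ∈ Icc (1 : ℤ) N, (F n : ℂ) * W T f n x‖ ^ 2 ∂μ

theorem B_nonneg (μ : Measure X) {k : ℕ} (T : Fin k → Equiv.Perm X) (f : Fin k → X → ℂ) (F : ℤ → ℝ) (N : ℕ) :
    0 ≤ B μ T f F N := integral_nonneg fun _ => by positivity

theorem bdd_int {μ : Measure X} [IsProbabilityMeasure μ] {u : X → ℂ} (hu : Measurable u) {C : ℝ} (hC : ∀ x, ‖u x‖ ≤ C) :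
    Integrable u μ :=
  Integrable.of_bound hu.aestronglyMeasurable C (Filter.Eventually.of_forall hC)

theorem shift_sumC {G : ℤ → ℂ} {N : ℕ} (hG : ∀ n, G n ≠ 0 → 1 ≤ n ∧ n ≤ N) {x : ℤ} (hx : 1 ≤ x ∧ x ≤ N) :
    ∑ b ∈ Icc (-(N : ℤ)) N, G (x + b) = ∑ n ∈ Icc (1 : ℤ) N, G n := by
  have h1 : ∑ b ∈ Icc (-(N : ℤ)) N, G (x + b) = ∑ n ∈ (Icc (-(N : ℤ)) N).map (addLeftEmbedding x), G n := by
    rw [sum_map]; rfl
  rw [h1]
  symm
  apply sum_subset
  · intro n hn
    rw [mem_Icc] at hn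
    rw [mem_map]
    exact ⟨n - x, mem_Icc.2 ⟨by omega, by omega⟩, by simp⟩
  · intro n _ hn
    by_contra hcon
    exact hn (mem_Icc.2 (hG n hcon))

/-- the expansion of the square -/
theorem expand {μ : Measure X} [IsProbabilityMeasure μ] {k : ℕ} {T : Fin k → Equiv.Perm X} (hT : ∀ i, MPr μ (T i))
    {f : Fin k → X → ℂ} (hf : BM f) {F : ℤ → ℝ} {N : ℕ} (hF : Sup F N) :
    ((B μ T f F N : ℝ) : ℂ) = ∑ t ∈ Icc (-(N : ℤ)) N, ∑ n ∈ Icc (1 : ℤ) N, ((De t F n : ℝ) : ℂ) *
      ∫ x, W T f n x * (starRingEnd ℂ) (W T f (n + t) x) ∂μ := by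
  have hm := fun n => W_meas hT hf n
  have hmc : ∀ n m, Measurable fun x => W T f n x * (starRingEnd ℂ) (W T f m x) := fun n m =>
    (hm n).mul (Complex.continuous_conj.measurable.comp (hm m))
  have hic : ∀ n m, Integrable (fun x => W T f n x * (starRingEnd ℂ) (W T f m x)) μ := fun n m =>
    bdd_int (hmc n m) (C := 1) (fun x => by
      rw [norm_mul, RCLike.norm_conj]
      exact mul_le_one₀ (W_norm T hf n x) (norm_nonneg _) (W_norm T hf m x))
  have e1 : ((B μ T f F N : ℝ) : ℂ) = ∫ x, ∑ n ∈ Icc (1 : ℤ) N, ∑ m ∈ Icc (1 : ℤ) N,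
      ((F n : ℂ) * (F m : ℂ)) * (W T f n x * (starRingEnd ℂ) (W T f m x)) ∂μ := by
    unfold B
    rw [← integral_complex_ofReal]
    congr 1
    funext x
    rw [Complex.ofReal_pow, ← Complex.mul_conj', map_sum, sum_mul_sum]
    apply sum_congr rfl; intro n _
    apply sum_congr rfl; intro m _
    rw [map_mul, Complex.conj_ofReal]
    ring
  rw [e1, integral_finsetSum _ (fun n _ => integrable_finsetSum _ fun m _ => (hic n m).const_mul _)]
  rw [sum_comm]
  apply sum_congr rfl; intro n hn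
  rw [integral_finsetSum _ (fun m _ => (hic n m).const_mul _)]
  have e2 : ∀ m, ∫ x, ((F n : ℂ) * (F m : ℂ)) * (W T f n x * (starRingEnd ℂ) (W T f m x)) ∂μ
      = ((F n : ℂ) * (F m : ℂ)) * ∫ x, W T f n x * (starRingEnd ℂ) (W T f m x) ∂μ := fun m => integral_const_mul _ _
  simp_rw [e2]
  rw [← shift_sumC (G := fun m => ((F n : ℂ) * (F m : ℂ)) * ∫ x, W T f n x * (starRingEnd ℂ) (W T f m x) ∂μ)
    (fun m hm => by
      have h1 := left_ne_zero_of_mul hm
      have h2 := right_ne_zero_of_mul h1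
      exact hF m (by exact_mod_cast h2)) (mem_Icc.1 hn)]
  apply sum_congr rfl; intro t _
  unfold De
  push_cast
  ring

/-- Cauchy-Schwarz -/
theorem cs {μ : Measure X} [IsProbabilityMeasure μ] {u : X → ℂ} (hu : Measurable u) {C : ℝ} (hC : ∀ x, ‖u x‖ ≤ C) :
    ∫ x, ‖u x‖ ∂μ ≤ Real.sqrt (∫ x, ‖u x‖ ^ 2 ∂μ) := by
  have h1 : Integrable (fun x => ‖u x‖) μ := (bdd_int hu hC).norm
  have h2 : Integrable (fun x => ‖u x‖ ^ 2) μ :=
    Integrable.of_bound (hu.norm.pow_const 2).aestronglyMeasurable (C ^ 2) (Filter.Eventually.of_forall fun x => by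
      rw [Real.norm_eq_abs, abs_of_nonneg (by positivity)]
      exact pow_le_pow_left₀ (norm_nonneg _) (hC x) 2)
  apply Real.le_sqrt_of_sq_le
  set c : ℝ := ∫ x, ‖u x‖ ∂μ with hc
  have h3 : 0 ≤ ∫ x, (‖u x‖ - c) ^ 2 ∂μ := integral_nonneg fun _ => by positivity
  have h4 : ∫ x, (‖u x‖ - c) ^ 2 ∂μ = ∫ x, ‖u x‖ ^ 2 ∂μ - c ^ 2 := by
    have e : ∀ x, (‖u x‖ - c) ^ 2 = (‖u x‖ ^ 2 - 2 * c * ‖u x‖) + c ^ 2 := fun x => by ring
    simp_rw [e]
    have h5 : Integrable (fun x => 2 * c * ‖u x‖) μ := h1.const_mul _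
    have h6 : Integrable (fun x => ‖u x‖ ^ 2 - 2 * c * ‖u x‖) μ := h2.sub h5
    rw [integral_add h6 (integrable_const _), integral_sub h2 h5,
      integral_const_mul, integral_const, probReal_univ, ← hc]
    simp only [smul_eq_mul, one_mul]
    ring
  linarith

/-- one integral -/
theorem reduce {μ : Measure X} [IsProbabilityMeasure μ] {k : ℕ} {T : Fin (k + 1) → Equiv.Perm X} (hT : ∀ i, MPr μ (T i))
    (hc : ∀ i j, Commute (T i) (T j)) {f : Fin (k + 1) → X → ℂ} (hf : BM f) (n t : ℤ) :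
    ∫ x, W T f n x * (starRingEnd ℂ) (W T f (n + t) x) ∂μ
      = ∫ x, (f 0 x * (starRingEnd ℂ) (f 0 ((T 0 ^ t) x))) *
        W (fun i : Fin k => T i.succ * (T 0)⁻¹) (fun i x => f i.succ x * (starRingEnd ℂ) (f i.succ ((T i.succ ^ t) x))) n x ∂μ := by
  set g : Fin (k + 1) → X → ℂ := fun i x => f i x * (starRingEnd ℂ) (f i ((T i ^ t) x)) with hg
  have hgm : ∀ i, Measurable (g i) := fun i =>
    (hf.m i).mul (Complex.continuous_conj.measurable.comp ((hf.m i).comp ((hT i).zpow t).a.measurable))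
  set h : X → ℂ := fun y => g 0 y * ∏ i : Fin k, g i.succ (((T i.succ * (T 0)⁻¹) ^ n) y) with hh
  have hhm : Measurable h := (hgm 0).mul (Finset.measurable_prod _ fun i _ =>
    (hgm i.succ).comp ((((hT i.succ).mul (hT 0).inv).zpow n).a.measurable))
  have e1 : ∀ x, W T f n x * (starRingEnd ℂ) (W T f (n + t) x) = h ((T 0 ^ n) x) := by
    intro x
    unfold W
    rw [map_prod, ← prod_mul_distrib, Fin.prod_univ_succ]
    have e2 : ∀ i, (T i ^ (n + t)) x = (T i ^ t) ((T i ^ n) x) := by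
      intro i
      rw [add_comm, zpow_add, Equiv.Perm.mul_apply]
    have e3 : ∀ i : Fin k, ((T i.succ * (T 0)⁻¹) ^ n) ((T 0 ^ n) x) = (T i.succ ^ n) x := by
      intro i
      rw [((hc i.succ 0).inv_right).mul_zpow, Equiv.Perm.mul_apply, inv_zpow]
      show (T i.succ ^ n) ((T 0 ^ n).symm ((T 0 ^ n) x)) = _
      rw [Equiv.symm_apply_apply]
    show _ = g 0 ((T 0 ^ n) x) * ∏ i : Fin k, g i.succ (((T i.succ * (T 0)⁻¹) ^ n) ((T 0 ^ n) x))
    simp_rw [e2, e3]
    rfl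
  simp_rw [e1]
  have h1 := ((hT 0).zpow n).a
  rw [show ∫ x, h ((T 0 ^ n) x) ∂μ = ∫ y, h y ∂(Measure.map (T 0 ^ n) μ) from
    (integral_map h1.measurable.aemeasurable hhm.aestronglyMeasurable).symm, h1.map_eq]
  rfl

/-- exponents -/
def ee : ℕ → ℕ
  | 0 => 0
  | k + 1 => ee k + (2 ^ (k + 1) - 1)

theorem ee_eq (k : ℕ) : ee k + k + 2 = 2 ^ (k + 1) := by
  induction k with
  | zero => rfl
  | succ k ih =>
    unfold ee
    have : 1 ≤ 2 ^ (k + 1) := Nat.one_le_two_pow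
    rw [pow_succ 2 (k + 1)]
    omega

/-- THE GENERALISED VON NEUMANN INEQUALITY for commuting transformations. -/
theorem gvn {μ : Measure X} [IsProbabilityMeasure μ] {N : ℕ} (k : ℕ) : ∀ {T : Fin k → Equiv.Perm X}, (∀ i, MPr μ (T i)) →
    (∀ i j, Commute (T i) (T j)) → ∀ {f : Fin k → X → ℂ}, BM f → ∀ {F : ℤ → ℝ}, Sup F N →
    B μ T f F N ^ (2 ^ k) ≤ (2 * N + 1) ^ ee k * GN (k + 1) F N := by
  induction k with
  | zero =>
    intro T _ _ f _ F hF
    have e : B μ T f F N = GN 1 F N := by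
      unfold B
      have e1 : ∀ x : X, ‖∑ n ∈ Icc (1 : ℤ) N, (F n : ℂ) * W T f n x‖ ^ 2 = (∑ n ∈ Icc (1 : ℤ) N, F n) ^ 2 := by
        intro x
        have e2 : ∑ n ∈ Icc (1 : ℤ) N, (F n : ℂ) * W T f n x = ((∑ n ∈ Icc (1 : ℤ) N, F n : ℝ) : ℂ) := by
          push_cast
          apply sum_congr rfl; intro n _
          unfold W
          simp
        rw [e2, Complex.norm_real, Real.norm_eq_abs, sq_abs]
      simp_rw [e1]
      rw [GN_one hF, integral_const, probReal_univ, one_smul]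
      rfl
    rw [e]
    simp [ee]
  | succ k ih =>
    intro T hT hc f hf F hF
    set T' : Fin k → Equiv.Perm X := fun i => T i.succ * (T 0)⁻¹ with hT'
    set g : ℤ → Fin (k + 1) → X → ℂ := fun t i x => f i x * (starRingEnd ℂ) (f i ((T i ^ t) x)) with hg
    have hgB : ∀ t, BM (fun i : Fin k => g t i.succ) := fun t =>
      ⟨fun i => (hf.m i.succ).mul (Complex.continuous_conj.measurable.comp ((hf.m i.succ).comp ((hT i.succ).zpow t).a.measurable)),
        fun i x => by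
          show ‖f i.succ x * (starRingEnd ℂ) (f i.succ ((T i.succ ^ t) x))‖ ≤ 1
          rw [norm_mul, RCLike.norm_conj]
          exact mul_le_one₀ (hf.b _ _) (norm_nonneg _) (hf.b _ _)⟩
    have hg0 : ∀ t, Measurable (g t 0) := fun t =>
      (hf.m 0).mul (Complex.continuous_conj.measurable.comp ((hf.m 0).comp ((hT 0).zpow t).a.measurable))
    have hg1 : ∀ t x, ‖g t 0 x‖ ≤ 1 := fun t x => by
      show ‖f 0 x * (starRingEnd ℂ) (f 0 ((T 0 ^ t) x))‖ ≤ 1
      rw [norm_mul, RCLike.norm_conj]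
      exact mul_le_one₀ (hf.b _ _) (norm_nonneg _) (hf.b _ _)
    have hT'M : ∀ i, MPr μ (T' i) := fun i => (hT i.succ).mul (hT 0).inv
    have hT'c : ∀ i j, Commute (T' i) (T' j) := fun i j =>
      (((hc i.succ j.succ).mul_right (hc i.succ 0).inv_right)).mul_left
        (((hc 0 j.succ).inv_left).mul_right ((hc 0 0).inv_left.inv_right))
    have hN1 : ((Icc (-(N : ℤ)) N).card : ℝ) = 2 * N + 1 := by
      rw [Int.card_Icc]
      have : ((N : ℤ) + 1 - -(N : ℤ)).toNat = 2 * N + 1 := by omega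
      rw [this]; push_cast; ring
    -- the first step
    have h1 : B μ T f F N ≤ ∑ t ∈ Icc (-(N : ℤ)) N, Real.sqrt (B μ T' (fun i : Fin k => g t i.succ) (De t F) N) := by
      have h2 : B μ T f F N = ‖((B μ T f F N : ℝ) : ℂ)‖ := by
        rw [Complex.norm_real, Real.norm_eq_abs, abs_of_nonneg (B_nonneg _ _ _ _ _)]
      rw [h2, expand hT hf hF]
      refine (norm_sum_le _ _).trans (sum_le_sum fun t _ => ?_)
      have hWm := fun n => W_meas hT'M (hgB t) n
      have hWn := fun n x => W_norm T' (hgB t) n x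
      set v : X → ℂ := fun x => ∑ n ∈ Icc (1 : ℤ) N, ((De t F n : ℝ) : ℂ) * W T' (fun i : Fin k => g t i.succ) n x with hv
      have hvm : Measurable v := Finset.measurable_sum _ fun n _ => (hWm n).const_mul _
      have hvb : ∀ x, ‖v x‖ ≤ ∑ n ∈ Icc (1 : ℤ) N, ‖((De t F n : ℝ) : ℂ)‖ := fun x => by
        refine (norm_sum_le _ _).trans (sum_le_sum fun n _ => ?_)
        rw [norm_mul]
        exact mul_le_of_le_one_right (norm_nonneg _) (hWn n x)
      have e1 : ∑ n ∈ Icc (1 : ℤ) N, ((De t F n : ℝ) : ℂ) * ∫ x, W T f n x * (starRingEnd ℂ) (W T f (n + t) x) ∂μ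
          = ∫ x, g t 0 x * v x ∂μ := by
        have e2 : ∀ x, g t 0 x * v x = ∑ n ∈ Icc (1 : ℤ) N, ((De t F n : ℝ) : ℂ) *
            (g t 0 x * W T' (fun i : Fin k => g t i.succ) n x) := by
          intro x
          rw [hv]
          simp only
          rw [mul_sum]
          apply sum_congr rfl; intro n _
          ring
        simp_rw [e2]
        rw [integral_finsetSum]
        · apply sum_congr rfl; intro n _
          rw [integral_const_mul, reduce hT hc hf n t]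
        · intro n _
          refine (bdd_int ((hg0 t).mul (hWm n)) (C := 1) fun x => ?_).const_mul _
          rw [Pi.mul_apply, norm_mul]
          exact mul_le_one₀ (hg1 t x) (norm_nonneg _) (hWn n x)
      rw [e1]
      have h3 : ‖∫ x, g t 0 x * v x ∂μ‖ ≤ ∫ x, ‖v x‖ ∂μ := by
        refine (norm_integral_le_integral_norm _).trans ?_
        apply integral_mono_of_nonneg (Filter.Eventually.of_forall fun x => norm_nonneg _)
          (bdd_int hvm hvb).norm (Filter.Eventually.of_forall fun x => ?_)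
        show ‖g t 0 x * v x‖ ≤ ‖v x‖
        rw [norm_mul]
        exact mul_le_of_le_one_left (norm_nonneg _) (hg1 t x)
      exact h3.trans (cs hvm hvb)
    -- the powers
    have h4 : B μ T f F N ^ (2 ^ (k + 1)) ≤ (∑ t ∈ Icc (-(N : ℤ)) N,
        Real.sqrt (B μ T' (fun i : Fin k => g t i.succ) (De t F) N)) ^ (2 ^ (k + 1)) :=
      pow_le_pow_left₀ (B_nonneg _ _ _ _ _) h1 _
    obtain ⟨q, hq⟩ : ∃ q : ℕ, 2 ^ (k + 1) = q + 1 := ⟨2 ^ (k + 1) - 1, by
      have : 1 ≤ 2 ^ (k + 1) := Nat.one_le_two_pow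
      omega⟩
    have h5 := pow_sum_div_card_le_sum_pow (s := Icc (-(N : ℤ)) N)
      (f := fun t => Real.sqrt (B μ T' (fun i : Fin k => g t i.succ) (De t F) N)) (fun t _ => Real.sqrt_nonneg _) q
    rw [hN1, div_le_iff₀ (by positivity), ← hq] at h5
    have h6 : ∀ t, Real.sqrt (B μ T' (fun i : Fin k => g t i.succ) (De t F) N) ^ (2 ^ (k + 1))
        ≤ (2 * N + 1) ^ ee k * GN (k + 1) (De t F) N := by
      intro t
      have e : (2 : ℕ) ^ (k + 1) = 2 * 2 ^ k := by rw [pow_succ]; ring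
      rw [e, pow_mul, Real.sq_sqrt (B_nonneg _ _ _ _ _)]
      exact ih hT'M hT'c (hgB t) (De_sup hF t)
    refine h4.trans (h5.trans ?_)
    have h7 : ∑ t ∈ Icc (-(N : ℤ)) N, Real.sqrt (B μ T' (fun i : Fin k => g t i.succ) (De t F) N) ^ (2 ^ (k + 1))
        ≤ (2 * N + 1) ^ ee k * GN (k + 1 + 1) F N := by
      rw [GN, mul_sum]
      exact sum_le_sum fun t _ => h6 t
    calc _ ≤ ((2 * N + 1) ^ ee k * GN (k + 1 + 1) F N) * (2 * (N : ℝ) + 1) ^ q :=
          mul_le_mul_of_nonneg_right h7 (by positivity)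
      _ = (2 * N + 1) ^ ee (k + 1) * GN (k + 1 + 1) F N := by
          have e : ee (k + 1) = ee k + q := by
            show ee k + (2 ^ (k + 1) - 1) = ee k + q
            omega
          rw [e, pow_add]
          ring

end Pool.Agent.Q49.ME
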