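import Pool.Agent.Q49.ME.Gen

/-! Multiple ergodic averages with weights, restricted to a residue class, by the product with a rotation of `ZMod q`. -/

set_option autoImplicit false

namespace Pool.Agent.Q49.ME

open MeasureTheory Finset Pool.Agent.W36.GU Pool.Agent.W36.GV Pool.Agent.W36.GK
open Pool.Agent.Results.MP_2d22f3_nt.MultipleRecurrence (System Bounded tp tp_mp tp_comm P_W BM_of ret_sum P_meas P_norm)

/-- the uniform measure -/
noncomputable def unif (q : ℕ) [NeZero q] : Measure (ZMod q) := (q : ENNReal)⁻¹ • Measure.count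

instance unif_prob (q : ℕ) [NeZero q] : IsProbabilityMeasure (unif q) := by
  constructor
  unfold unif
  rw [Measure.smul_apply, smul_eq_mul, Measure.count_univ]
  simp only [ENat.card_eq_coe_fintype_card, ZMod.card]
  exact ENNReal.inv_mul_cancel (by exact_mod_cast NeZero.ne q) (ENNReal.natCast_ne_top q)

theorem unif_single (q : ℕ) [NeZero q] (u : ZMod q) : (unif q).real {u} = 1 / q := by
  unfold unif Measure.real
  rw [Measure.smul_apply, smul_eq_mul, Measure.count_singleton, mul_one, ENNReal.toReal_inv]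
  simp

theorem unif_int (q : ℕ) [NeZero q] (f : ZMod q → ℝ) : ∫ u, f u ∂(unif q) = (∑ u, f u) / q := by
  rw [integral_fintype (Integrable.of_finite), Finset.sum_div]
  apply Finset.sum_congr rfl; intro u _
  rw [unif_single, smul_eq_mul]; ring

/-- the rotation by one -/
def rot (q : ℕ) [NeZero q] : ZMod q ≃ᵐ ZMod q where
  toEquiv := Equiv.addRight 1
  measurable_toFun := measurable_of_finite _
  measurable_invFun := measurable_of_finite _

theorem rot_iter (q : ℕ) [NeZero q] (n : ℕ) (u : ZMod q) : (rot q)^[n] u = u + n := by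
  induction n generalizing u with
  | zero => simp
  | succ n ih =>
    rw [Function.iterate_succ_apply, ih]
    show u + 1 + n = u + ((n + 1 : ℕ) : ZMod q)
    push_cast; ring

theorem rot_mp (q : ℕ) [NeZero q] : MeasurePreserving (rot q) (unif q) (unif q) := by
  refine ⟨(rot q).measurable, ?_⟩
  unfold unif
  rw [Measure.map_smul]
  congr 1
  ext s hs
  rw [Measure.map_apply (rot q).measurable hs]
  rw [Measure.count_apply_finite' (Set.toFinite _) ((rot q).measurable hs), Measure.count_apply_finite' (Set.toFinite _) hs]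
  congr 1
  rw [← Set.ncard_eq_toFinset_card _ (Set.toFinite _), ← Set.ncard_eq_toFinset_card _ (Set.toFinite _)]
  exact Set.ncard_preimage_of_injective_subset_range (rot q).injective (fun x _ => (rot q).surjective x)

/-- the system `Y` with one more transformation, on the product of its space with `ZMod q` -/
noncomputable def ext {k : ℕ} {X : Type} [MeasurableSpace X] (Y : System k X) (q : ℕ) [NeZero q] : System (k + 1) (X × ZMod q) where
  μ := Y.μ.prod (unif q)
  prob := by
    have := Y.prob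
    infer_instance
  T := Fin.cons ((MeasurableEquiv.refl X).prodCongr (rot q)) (fun i => (Y.T i).prodCongr (MeasurableEquiv.refl (ZMod q)))
  mp := by
    have := Y.prob
    intro i
    refine Fin.cases ?_ (fun i => ?_) i
    · exact (MeasurePreserving.id Y.μ).prod (rot_mp q)
    · exact (Y.mp i).prod (MeasurePreserving.id (unif q))
  comm := by
    intro i j x
    obtain ⟨x, u⟩ := x
    refine Fin.cases ?_ (fun i => ?_) i
    · refine Fin.cases ?_ (fun j => ?_) j
      · rfl
      · rfl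
    · refine Fin.cases ?_ (fun j => ?_) j
      · rfl
      · show (Y.T i (Y.T j x), u) = (Y.T j (Y.T i x), u)
        rw [Y.comm]

theorem ext_iter0 {k : ℕ} {X : Type} [MeasurableSpace X] (Y : System k X) (q : ℕ) [NeZero q] (n : ℕ) (x : X) (u : ZMod q) :
    ((ext Y q).T 0)^[n] (x, u) = (x, u + n) := by
  rw [← rot_iter q n u]
  induction n generalizing u with
  | zero => rfl
  | succ n ih =>
    rw [Function.iterate_succ_apply, Function.iterate_succ_apply, ← ih]
    rfl

theorem ext_iterS {k : ℕ} {X : Type} [MeasurableSpace X] (Y : System k X) (q : ℕ) [NeZero q] (i : Fin k) (n : ℕ) (x : X) (u : ZMod q) :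
    ((ext Y q).T i.succ)^[n] (x, u) = ((Y.T i)^[n] x, u) := by
  induction n generalizing x with
  | zero => rfl
  | succ n ih =>
    rw [Function.iterate_succ_apply, Function.iterate_succ_apply, ← ih]
    rfl

/-- the weighted averages restricted to a residue class -/
theorem smallF_res (k : ℕ) {Fc : Set (ℤ → ℝ)} (hsm : Sm (k + 2) Fc) (q : ℕ) [NeZero q] {ε : ℝ} (hε : 0 < ε) : ∃ N₀ : ℕ, 1 ≤ N₀ ∧
    ∀ N : ℕ, N₀ ≤ N → ∀ F ∈ Fc, ∀ (b : ℤ) (X : Type) [MeasurableSpace X] (Y : System k X) (f : Fin k → X → ℂ),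
      Bounded f → ∫ x, ‖∑ n ∈ (Finset.Icc 1 N).filter (fun n : ℕ => (n : ℤ) ≡ b [ZMOD q]), ((F n : ℝ) : ℂ) * Y.P f n x‖ ^ 2 ∂Y.μ ≤ ε * N ^ 2 := by
  have hq : (0 : ℝ) < q := by exact_mod_cast Nat.pos_of_ne_zero (NeZero.ne q)
  obtain ⟨N0, h1, h0⟩ := smallF (k + 1) hsm (show 0 < ε / q by positivity)
  refine ⟨N0, h1, fun N hN F hF b X _ Y f hf => ?_⟩
  have := Y.prob
  set g : Fin (k + 1) → X × ZMod q → ℂ := Fin.cons (fun z => if z.2 = (b : ZMod q) then 1 else 0) (fun i z => f i z.1) with hg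
  have hg0 : g 0 = fun z => if z.2 = (b : ZMod q) then 1 else 0 := rfl
  have hgs : ∀ i : Fin k, g i.succ = fun z => f i z.1 := fun i => rfl
  have hgB : Bounded g := by
    intro i
    refine Fin.cases ?_ (fun i => ?_) i
    · rw [hg0]
      constructor
      · have h3 : MeasurableSet {z : X × ZMod q | z.2 = (b : ZMod q)} := measurable_snd (measurableSet_singleton _)
        exact Measurable.ite h3 measurable_const measurable_const
      · intro z
        show ‖(if z.2 = (b : ZMod q) then (1 : ℂ) else 0)‖ ≤ 1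
        split_ifs <;> simp
    · rw [hgs]
      exact ⟨(hf i).1.comp measurable_fst, fun z => (hf i).2 z.1⟩
  have h2 := h0 N hN F hF (X × ZMod q) (ext Y q) g hgB
  set G : X × ZMod q → ℝ := fun z => ‖∑ n ∈ Finset.Icc 1 N, ((F n : ℝ) : ℂ) * (ext Y q).P g n z‖ ^ 2 with hG
  have hGm : Measurable G := ((Finset.measurable_sum _ fun n _ => (P_meas (ext Y q) hgB n).const_mul _).norm).pow_const 2
  have hGb : ∀ z, ‖G z‖ ≤ (∑ n ∈ Finset.Icc 1 N, ‖((F n : ℝ) : ℂ)‖) ^ 2 := fun z => by
    rw [hG, Real.norm_eq_abs, abs_of_nonneg (by positivity)]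
    apply pow_le_pow_left₀ (norm_nonneg _)
    refine (norm_sum_le _ _).trans (Finset.sum_le_sum fun n _ => ?_)
    rw [norm_mul]
    exact mul_le_of_le_one_right (norm_nonneg _) (P_norm _ hgB n z)
  have hGi : Integrable G (Y.μ.prod (unif q)) := Integrable.of_bound hGm.aestronglyMeasurable _ (Filter.Eventually.of_forall hGb)
  have h4 : ∫ z, G z ∂(ext Y q).μ = ∫ x, (∑ u, G (x, u)) / q ∂Y.μ := by
    show ∫ z, G z ∂(Y.μ.prod (unif q)) = _
    rw [integral_prod _ hGi]
    congr 1
    funext x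
    exact unif_int q _
  have h5 : ∀ x, G (x, 0) = ‖∑ n ∈ (Finset.Icc 1 N).filter (fun n : ℕ => (n : ℤ) ≡ b [ZMOD q]), ((F n : ℝ) : ℂ) * Y.P f n x‖ ^ 2 := by
    intro x
    rw [hG]
    simp only
    rw [Finset.sum_filter]
    congr 2
    apply Finset.sum_congr rfl; intro n _
    have e1 : (ext Y q).P g n (x, 0) = (if (n : ℤ) ≡ b [ZMOD q] then 1 else 0) * Y.P f n x := by
      unfold System.P
      rw [Fin.prod_univ_succ]
      congr 1
      · rw [ext_iter0, hg0]
        simp only [zero_add]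
        have : ((n : ZMod q) = (b : ZMod q)) ↔ (n : ℤ) ≡ b [ZMOD q] := by
          rw [← ZMod.intCast_eq_intCast_iff]; push_cast; rfl
        simp only [this]
      · apply Finset.prod_congr rfl; intro i _
        rw [ext_iterS, hgs]
    rw [e1]
    split_ifs <;> simp
  simp_rw [← h5]
  have h6 : ∀ x, G (x, 0) ≤ q * ((∑ u, G (x, u)) / q) := fun x => by
    rw [mul_div_cancel₀ _ hq.ne']
    exact Finset.single_le_sum (f := fun u => G (x, u)) (fun u _ => by rw [hG]; positivity) (Finset.mem_univ 0)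
  have hI : Integrable (fun x => (q : ℝ) * ((∑ u, G (x, u)) / q)) Y.μ := by
    apply Integrable.const_mul
    apply Integrable.div_const
    apply integrable_finsetSum
    intro u _
    exact Integrable.of_bound (hGm.comp (measurable_id.prodMk measurable_const)).aestronglyMeasurable _
      (Filter.Eventually.of_forall fun x => hGb (x, u))
  calc ∫ x, G (x, 0) ∂Y.μ ≤ ∫ x, (q : ℝ) * ((∑ u, G (x, u)) / q) ∂Y.μ :=
        integral_mono_of_nonneg (Filter.Eventually.of_forall fun x => by rw [hG]; positivity) hI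
          (Filter.Eventually.of_forall h6)
    _ = q * ∫ z, G z ∂(ext Y q).μ := by rw [integral_const_mul, h4]
    _ ≤ q * (ε / q * N ^ 2) := mul_le_mul_of_nonneg_left h2 hq.le
    _ = ε * N ^ 2 := by field_simp

theorem small_retF_res (k : ℕ) {Fc : Set (ℤ → ℝ)} (hsm : Sm (k + 2) Fc) (q : ℕ) [NeZero q] {ε : ℝ} (hε : 0 < ε) : ∃ N₀ : ℕ, 1 ≤ N₀ ∧
    ∀ N : ℕ, N₀ ≤ N → ∀ F ∈ Fc, ∀ (b : ℤ) (X : Type) [MeasurableSpace X] (Y : System k X) (A₀ : Set X) (A : Fin k → Set X),
      MeasurableSet A₀ → (∀ i, MeasurableSet (A i)) →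
      |∑ n ∈ (Finset.Icc 1 N).filter (fun n : ℕ => (n : ℤ) ≡ b [ZMOD q]), F n * Y.ret A₀ A n| ≤ ε * N := by
  obtain ⟨N0, h1, h0⟩ := smallF_res k hsm q (show 0 < ε ^ 2 by positivity)
  refine ⟨N0, h1, fun N hN F hF b X _ Y A₀ A hA₀ hA => ?_⟩
  have e1 : ∑ n ∈ (Finset.Icc 1 N).filter (fun n : ℕ => (n : ℤ) ≡ b [ZMOD q]), F n * Y.ret A₀ A n
      = ∑ n ∈ Finset.Icc 1 N, (if (n : ℤ) ≡ b [ZMOD q] then F n else 0) * Y.ret A₀ A n := by
    rw [Finset.sum_filter]
    apply Finset.sum_congr rfl; intro n _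
    split_ifs <;> simp
  rw [e1]
  refine (ret_sum Y hA₀ hA (fun n : ℕ => if (n : ℤ) ≡ b [ZMOD q] then F n else 0) N).trans ?_
  have h2 := h0 N hN F hF b X Y (fun i => (A i).indicator (fun _ => 1)) (fun i => ⟨measurable_const.indicator (hA i), fun x => by
    show ‖(A i).indicator (fun _ => (1 : ℂ)) x‖ ≤ 1
    by_cases h : x ∈ A i
    · rw [Set.indicator_of_mem h]; simp
    · rw [Set.indicator_of_notMem h]; simp⟩)
  have e2 : ∀ x, ∑ n ∈ Finset.Icc 1 N, ((if (n : ℤ) ≡ b [ZMOD q] then F n else 0 : ℝ) : ℂ) * Y.P (fun i => (A i).indicator (fun _ => 1)) n x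
      = ∑ n ∈ (Finset.Icc 1 N).filter (fun n : ℕ => (n : ℤ) ≡ b [ZMOD q]), ((F n : ℝ) : ℂ) * Y.P (fun i => (A i).indicator (fun _ => 1)) n x := by
    intro x
    rw [Finset.sum_filter]
    apply Finset.sum_congr rfl; intro n _
    split_ifs <;> simp
  simp_rw [e2]
  calc _ ≤ Real.sqrt (ε ^ 2 * N ^ 2) := Real.sqrt_le_sqrt h2
    _ = ε * N := by
      rw [← mul_pow, Real.sqrt_sq (by positivity)]

end Pool.Agent.Q49.ME
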